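import Pool.Agent.H20.LIM.Targets

/-! LI: `log ‖h‖` is locally integrable. -/

set_option autoImplicit false

open Complex MeasureTheory Set Filter Topology Metric

namespace Pool.Agent.H66.LIM

open Pool.Agent.H20.LIM

theorem pf_li (hSM : T_SM) : T_LI := by
  rintro h hh ⟨z0, hz0⟩
  intro x
  have hr : 0 < ‖x - z0‖ + 1 := by positivity
  have han : AnalyticOnNhd ℂ h (closedBall z0 (‖x - z0‖ + 1)) :=
    fun z _ => hh.analyticAt z
  obtain ⟨h1, -⟩ := hSM h z0 _ hr han hz0
  refine ⟨closedBall z0 (‖x - z0‖ + 1), ?_, h1⟩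
  refine mem_of_superset (isOpen_ball.mem_nhds ?_) ball_subset_closedBall
  rw [mem_ball, dist_eq_norm]
  linarith

end Pool.Agent.H66.LIM
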