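import Pool.Agent.H20.LIM.Targets

/-! BC: the logarithm of a zero free function. -/

set_option autoImplicit false

open Complex MeasureTheory Set Filter Topology Metric

namespace Pool.Agent.H66.LIM

open Pool.Agent.H20.LIM

theorem exists_log_ball (c : ℂ) (R : ℝ) (hR : 0 < R) (g : ℂ → ℂ)
    (hg : DifferentiableOn ℂ g (ball c R)) (h0 : ∀ z ∈ ball c R, g z ≠ 0) :
    ∃ l : ℂ → ℂ, DifferentiableOn ℂ l (ball c R) ∧ l c = Complex.log (g c) ∧
      ∀ z ∈ ball c R, cexp (l z) = g z := by
  have hgd : DifferentiableOn ℂ (deriv g) (ball c R) := hg.deriv isOpen_ball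
  have hq : DifferentiableOn ℂ (fun z => deriv g z / g z) (ball c R) := hgd.div hg h0
  have hcm : c ∈ ball c R := mem_ball_self hR
  obtain ⟨F, hF0, hF⟩ := hq.isExactOn_ball.with_val_at c (Complex.log (g c))
  have hFd : DifferentiableOn ℂ F (ball c R) :=
    fun z hz => (hF z hz).differentiableAt.differentiableWithinAt
  have key : ∀ z ∈ ball c R, g z * cexp (-F z) = g c * cexp (-F c) := by
    have hconst : ∀ z ∈ ball c R, HasDerivAt (fun z => g z * cexp (-F z)) 0 z := by
      intro z hz
      have h1 : HasDerivAt g (deriv g z) z :=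
        (hg.differentiableAt (isOpen_ball.mem_nhds hz)).hasDerivAt
      have h2 := (hF z hz).neg.cexp
      have h3 := h1.mul h2
      refine h3.congr_deriv ?_
      have := h0 z hz
      field_simp
      simp
    intro z hz
    exact (convex_ball c R).is_const_of_fderivWithin_eq_zero (𝕜 := ℂ)
      (f := fun z => g z * cexp (-F z))
      (fun z hz => (hconst z hz).differentiableAt.differentiableWithinAt)
      (fun z hz => by
        have h := (hconst z hz).hasDerivWithinAt (s := ball c R)
        have h' := h.hasFDerivWithinAt.fderivWithin (isOpen_ball.uniqueDiffWithinAt hz)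
        rw [h']; simp) hz hcm
  refine ⟨F, hFd, hF0, fun z hz => ?_⟩
  have h1 := key z hz
  have h2 : cexp (F c) = g c := by rw [hF0, Complex.exp_log (h0 c hcm)]
  have h3 : g c * cexp (-F c) = 1 := by rw [← h2, ← Complex.exp_add]; simp
  rw [h3] at h1
  calc cexp (F z) = (g z * cexp (-F z)) * cexp (F z) := by rw [h1, one_mul]
    _ = g z * (cexp (-F z) * cexp (F z)) := by ring
    _ = g z := by rw [← Complex.exp_add]; simp

theorem pf_bc : T_BC := by
  intro r' r hr' hrr
  have hr : 0 < r := hr'.trans hrr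
  have hd : 0 < r - r' := sub_pos.2 hrr
  refine ⟨12 * r / (r - r'), by positivity, ?_⟩
  intro c k B hB hk hk2 hkc
  have hcm : c ∈ ball c r := mem_ball_self hr
  obtain ⟨G, hG, hGc, hGe⟩ := exists_log_ball c r hr k hk fun z hz => (hk2 z hz).1
  have hre : ∀ z ∈ ball c r, Real.log ‖k z‖ = (G z).re := by
    intro z hz
    rw [← hGe z hz, Complex.norm_exp, Real.log_exp]
  have hleB : ∀ z ∈ ball c r, (G z).re ≤ B := by
    intro z hz
    rw [← hre z hz]
    have h1 : 0 < ‖k z‖ := norm_pos_iff.2 (hk2 z hz).1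
    exact (Real.log_le_iff_le_exp h1).2 (hk2 z hz).2
  have hgeB : -B ≤ (G c).re := by
    rw [← hre c hcm]
    have h1 : 0 < ‖k c‖ := norm_pos_iff.2 (hk2 c hcm).1
    exact (Real.le_log_iff_exp_le h1).2 hkc
  have hGcn : ‖G c‖ ≤ 5 * B := by
    have h1 : |(G c).re| ≤ B := abs_le.2 ⟨hgeB, hleB c hcm⟩
    have h2 : |(G c).im| ≤ Real.pi := by
      rw [hGc, Complex.log_im]
      exact Complex.abs_arg_le_pi _
    have h3 := Complex.norm_le_abs_re_add_abs_im (G c)
    have h4 := Real.pi_le_four
    linarith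
  refine ⟨G, hG.mono (ball_subset_ball hrr.le), ?_, fun z hz => hre z (ball_subset_ball hrr.le hz)⟩
  intro z hz
  have hf : DifferentiableOn ℂ (fun w => G (c + w)) (ball 0 r) := by
    refine hG.comp (by fun_prop) fun w hw => ?_
    rw [mem_ball, dist_eq_norm] at hw ⊢
    rw [add_sub_cancel_left]
    rwa [sub_zero] at hw
  have hmaps : Set.MapsTo (fun w => G (c + w)) (ball 0 r) {z | z.re ≤ B} := by
    intro w hw
    refine hleB (c + w) ?_
    rw [mem_ball, dist_eq_norm] at hw ⊢
    rw [add_sub_cancel_left]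
    rwa [sub_zero] at hw
  have hz' : ‖z - c‖ < r' := by
    rw [mem_ball, dist_eq_norm] at hz
    exact hz
  have hzb : z - c ∈ ball (0 : ℂ) r := by
    rw [mem_ball, dist_eq_norm, sub_zero]
    exact hz'.trans hrr
  have hbc := Complex.borelCaratheodory (by linarith : 0 < B) hf hmaps hr hzb
  simp only [add_sub_cancel, add_zero] at hbc
  refine hbc.trans ?_
  obtain ⟨s, hs⟩ : ∃ s, s = ‖z - c‖ := ⟨_, rfl⟩
  rw [← hs] at hz' ⊢
  have hs0 : 0 ≤ s := by rw [hs]; exact norm_nonneg _
  have hrs : r - r' ≤ r - s := by linarith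
  have hrs0 : 0 < r - s := by linarith
  have h1 : 2 * B * s / (r - s) ≤ 2 * B * r / (r - r') := by
    apply div_le_div₀ (by positivity) _ hd hrs
    have : s ≤ r := by linarith
    gcongr
  have h2 : ‖G c‖ * (r + s) / (r - s) ≤ 5 * B * (r + r) / (r - r') := by
    apply div_le_div₀ (by positivity) _ hd hrs
    have : s ≤ r := by linarith
    gcongr
  refine (add_le_add h1 h2).trans (le_of_eq ?_)
  ring

end Pool.Agent.H66.LIM
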